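import Pool.Agent.H28.GU.TargetsC

/-!
Module IN of the project GU on `MP_c59857_nt`: the decomposition of the frequencies.
-/

set_option autoImplicit false

open Finset

namespace Pool.Agent.H21.GU

open Pool.Agent.H28.GU

theorem in_frei {q d : ℕ} [NeZero q] (S : Finset (Fin (d + 1) → ZMod q))
    (τ : (Fin (d + 1) → ZMod q) → ZMod q) (x : Fin 4 → ZMod q) (h : FreiV S τ) :
    FreiV (slice S x) (sgn4 τ x) := by
  intro i z x' y' hx hy hsum
  have key : ∀ j' : Fin 4, ∑ j, τ (Fin.cons (x j') (Function.update z i (x' j))) =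
      ∑ j, τ (Fin.cons (x j') (Function.update z i (y' j))) := by
    intro j'
    have h1 := h i.succ (Fin.cons (x j') z) x' y' (by
      intro j
      have h2 := hx j
      unfold Pool.Agent.H28.GU.slice at h2
      rw [Finset.mem_filter] at h2
      have h3 := h2.2 j'
      rw [Fin.cons_update] at h3
      exact h3) (by
      intro j
      have h2 := hy j
      unfold Pool.Agent.H28.GU.slice at h2
      rw [Finset.mem_filter] at h2
      have h3 := h2.2 j'
      rw [Fin.cons_update] at h3
      exact h3) hsum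
    simpa only [Fin.cons_update] using h1
  unfold sgn4
  simp only [Finset.sum_sub_distrib, Finset.sum_add_distrib, key]

theorem in_pigeon {q : ℕ} [NeZero q] (X : Finset (Fin 4 → ZMod q)) (f : ℝ)
    (hX : f * (q : ℝ) ^ 4 ≤ (X.card : ℝ)) :
    ∃ x1 x2 x3 : ZMod q, f * q ≤
      ((Finset.univ.filter (fun x0 : ZMod q => ![x0, x1, x2, x3] ∈ X)).card : ℝ) := by
  classical
  by_contra hcon
  push Not at hcon
  set X0 : ZMod q × ZMod q × ZMod q → Finset (ZMod q) := fun b =>
    Finset.univ.filter (fun x0 : ZMod q => ![x0, b.1, b.2.1, b.2.2] ∈ X) with hX0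
  have hsub : X ⊆ Finset.univ.biUnion (fun b : ZMod q × ZMod q × ZMod q =>
      (X0 b).image (fun x0 => ![x0, b.1, b.2.1, b.2.2])) := by
    intro x hx
    rw [Finset.mem_biUnion]
    have hx' : x = ![x 0, x 1, x 2, x 3] := by
      funext i
      fin_cases i <;> rfl
    refine ⟨(x 1, x 2, x 3), Finset.mem_univ _, ?_⟩
    rw [Finset.mem_image]
    refine ⟨x 0, ?_, hx'.symm⟩
    simp only [hX0, Finset.mem_filter, Finset.mem_univ, true_and]
    rw [← hx']
    exact hx
  have h1 : (X.card : ℝ) ≤ ∑ b : ZMod q × ZMod q × ZMod q, ((X0 b).card : ℝ) := by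
    have h2 : X.card ≤ ∑ b : ZMod q × ZMod q × ZMod q, (X0 b).card := by
      refine (Finset.card_le_card hsub).trans (Finset.card_biUnion_le.trans ?_)
      exact Finset.sum_le_sum fun b _ => Finset.card_image_le
    exact_mod_cast h2
  have h3 : ∑ b : ZMod q × ZMod q × ZMod q, ((X0 b).card : ℝ) <
      ∑ b : ZMod q × ZMod q × ZMod q, f * (q : ℝ) := by
    apply Finset.sum_lt_sum_of_nonempty ⟨(0, 0, 0), Finset.mem_univ _⟩
    intro b _
    exact hcon b.1 b.2.1 b.2.2
  have h4 : ∑ b : ZMod q × ZMod q × ZMod q, f * (q : ℝ) = f * (q : ℝ) ^ 4 := by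
    rw [Finset.sum_const, Finset.card_univ, Fintype.card_prod, Fintype.card_prod, ZMod.card,
      nsmul_eq_mul]
    push_cast
    ring
  linarith

theorem pf_IN (hST : T_ST) : T_IN := by
  classical
  intro d
  induction d with
  | zero =>
    intro f B k hf
    refine ⟨1, one_pos, ?_⟩
    intro q _ W _ _ a p κ Q r c S τ F _ _ _ _ _ hF hmix hrel hr
    have hne : F.Nonempty := by
      rw [← Finset.card_pos]
      have h1 : (0 : ℝ) < (F.card : ℝ) := by
        refine lt_of_lt_of_le ?_ hF
        simp [hf]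
      exact_mod_cast h1
    obtain ⟨z, hz⟩ := hne
    obtain ⟨w0⟩ : Nonempty W := inferInstance
    refine ⟨S, fun i => i.elim0, Finset.Subset.refl _, ?_, fun i => i.elim0, ?_⟩
    · have h1 := hmix z hz w0 ∅
      have h2 : 1 ≤ S.card := Finset.card_pos.2 ⟨_, h1⟩
      have h3 : (1 : ℝ) ≤ S.card := by exact_mod_cast h2
      simpa using h3
    · intro s _
      have h1 := hrel z hz
      rw [hr rfl] at h1
      have h2 : ∀ w, aff c (a w) z.1 = s := fun w => Subsingleton.elim _ _
      simp only [h2] at h1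
      simp only [pow_zero, mul_one, Finset.univ_eq_empty, Finset.sum_empty]
      rw [Finset.sum_mul]
      exact h1
  | succ d ih =>
    intro f B k hf
    obtain ⟨f1, hf1, hst⟩ := hST f B k hf
    obtain ⟨f2, hf2, hin⟩ := ih f1 B k hf1
    refine ⟨f1 * f2, mul_pos hf1 hf2, ?_⟩
    intro q hq W _ _ a p κ Q r c S τ F hW hQ hp hap hfrei hF hmix hrel _
    have : NeZero q := ⟨hq.out.ne_zero⟩
    obtain ⟨X, hX, hX2⟩ := hst d q W a p κ Q r c S τ F hW hQ hp hap hfrei hF hmix hrel
    have hstep : ∀ x ∈ X, ∃ (S₁ : Finset (Fin d → ZMod q)) (v : Fin d → (Fin d → ZMod q) → ZMod q),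
        S₁ ⊆ slice S x ∧ f2 * (q : ℝ) ^ d ≤ (S₁.card : ℝ) ∧
        (∀ i z t, v i (Function.update z i t) = v i z) ∧
        ∀ s ∈ S₁, (∑ w, κ w * a w * a w ^ d) * sgn4 τ x s = ∑ i, v i s := by
      intro x hx
      obtain ⟨F', hF', hmix', hrel'⟩ := hX2 x hx
      exact hin q W a p (fun w => κ w * a w) Q 0 (Fin.tail c) (slice S x) (sgn4 τ x) F' hW hQ hp
        hap (in_frei S τ x hfrei) hF' hmix' hrel' (fun _ => rfl)
    obtain ⟨x1, x2, x3, hx⟩ := in_pigeon X f1 hX
    set X0 := Finset.univ.filter (fun x0 : ZMod q => ![x0, x1, x2, x3] ∈ X) with hX0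
    choose! T V hT1 hT2 hV1 hV2 using hstep
    have hX0mem : ∀ x0, x0 ∈ X0 ↔ ![x0, x1, x2, x3] ∈ X := by
      intro x0
      simp only [hX0, Finset.mem_filter, Finset.mem_univ, true_and]
    set K : ZMod q := ∑ w, κ w * a w ^ (d + 1) with hK
    have hKK : ∑ w, κ w * a w * a w ^ d = K := by
      rw [hK]
      refine Finset.sum_congr rfl fun w _ => ?_
      rw [pow_succ]
      ring
    set V' : (Fin 4 → ZMod q) → Fin d → (Fin d → ZMod q) → ZMod q := fun x =>
      if x ∈ X then V x else fun _ _ => 0 with hV'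
    have hV'1 : ∀ x i z t, V' x i (Function.update z i t) = V' x i z := by
      intro x i z t
      simp only [hV']
      split_ifs with hxX
      · exact hV1 x hxX i z t
      · rfl
    refine ⟨Finset.univ.filter (fun s => s 0 ∈ X0 ∧ Fin.tail s ∈ T ![s 0, x1, x2, x3]),
      Fin.cons (fun s => -(K * (τ (Fin.cons x1 (Fin.tail s)) - τ (Fin.cons x2 (Fin.tail s)) -
        τ (Fin.cons x3 (Fin.tail s)))))
        (fun i s => V' ![s 0, x1, x2, x3] i (Fin.tail s)), ?_, ?_, ?_, ?_⟩
    · intro s hs
      rw [Finset.mem_filter] at hs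
      have h1 := hT1 _ ((hX0mem _).1 hs.2.1) hs.2.2
      unfold Pool.Agent.H28.GU.slice at h1
      rw [Finset.mem_filter] at h1
      have h2 := h1.2 0
      have h3 : (Fin.cons (![s 0, x1, x2, x3] 0) (Fin.tail s) : Fin (d + 1) → ZMod q) = s :=
        Fin.cons_self_tail s
      rw [h3] at h2
      exact h2
    · have h1 : (X0.sigma (fun x0 => T ![x0, x1, x2, x3])).card ≤
          (Finset.univ.filter (fun s : Fin (d + 1) → ZMod q =>
            s 0 ∈ X0 ∧ Fin.tail s ∈ T ![s 0, x1, x2, x3])).card := by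
        apply Finset.card_le_card_of_injOn
          (fun y : (_ : ZMod q) × (Fin d → ZMod q) => (Fin.cons y.1 y.2 : Fin (d + 1) → ZMod q))
        · intro y hy
          rw [Finset.mem_coe, Finset.mem_sigma] at hy
          rw [Finset.mem_coe, Finset.mem_filter]
          refine ⟨Finset.mem_univ _, ?_, ?_⟩
          · exact hy.1
          · exact hy.2
        · intro y _ y' _ hyy
          have h3 : y.1 = y'.1 := by
            have := congrFun hyy 0
            simpa using this
          have h4 : y.2 = y'.2 := by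
            have := congrArg Fin.tail hyy
            simpa using this
          cases y
          cases y'
          simp only at h3 h4
          rw [h3, h4]
      have h2 : (f1 * f2) * (q : ℝ) ^ (d + 1) ≤
          ((X0.sigma (fun x0 => T ![x0, x1, x2, x3])).card : ℝ) := by
        rw [Finset.card_sigma]
        push_cast
        calc (f1 * f2) * (q : ℝ) ^ (d + 1) = (f1 * q) * (f2 * (q : ℝ) ^ d) := by ring
          _ ≤ (X0.card : ℝ) * (f2 * (q : ℝ) ^ d) := by
              apply mul_le_mul_of_nonneg_right hx (by positivity)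
          _ = ∑ x0 ∈ X0, f2 * (q : ℝ) ^ d := by
              rw [Finset.sum_const, nsmul_eq_mul]
          _ ≤ ∑ x0 ∈ X0, ((T ![x0, x1, x2, x3]).card : ℝ) := by
              apply Finset.sum_le_sum
              intro x0 hx0
              exact hT2 _ ((hX0mem _).1 hx0)
      exact h2.trans (by exact_mod_cast h1)
    · intro i z t
      refine Fin.cases ?_ (fun i => ?_) i
      · simp only [Fin.cons_zero]
        rw [Fin.tail_update_zero]
      · simp only [Fin.cons_succ]
        rw [Fin.tail_update_succ, Function.update_of_ne (Fin.succ_ne_zero i).symm]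
        exact hV'1 _ _ _ _
    · intro s hs
      rw [Finset.mem_filter] at hs
      have hxX := (hX0mem _).1 hs.2.1
      have h1 := hV2 _ hxX _ hs.2.2
      rw [hKK] at h1
      rw [Fin.sum_univ_succ]
      simp only [Fin.cons_zero, Fin.cons_succ]
      have h2 : ∑ i, V' ![s 0, x1, x2, x3] i (Fin.tail s) =
          ∑ i, V ![s 0, x1, x2, x3] i (Fin.tail s) := by
        simp only [hV', if_pos hxX]
      rw [h2, ← h1]
      unfold sgn4
      have h3 : (Fin.cons (![s 0, x1, x2, x3] 0) (Fin.tail s) : Fin (d + 1) → ZMod q) = s :=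
        Fin.cons_self_tail s
      have e1 : (![s 0, x1, x2, x3] : Fin 4 → ZMod q) 1 = x1 := rfl
      have e2 : (![s 0, x1, x2, x3] : Fin 4 → ZMod q) 2 = x2 := rfl
      have e3 : (![s 0, x1, x2, x3] : Fin 4 → ZMod q) 3 = x3 := rfl
      rw [h3, e1, e2, e3]
      ring

end Pool.Agent.H21.GU
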